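import Pool.Agent.helper70.LZ.SpecZ
import Pool.Agent.helper59.FI.Base

set_option autoImplicit false

/-! # Row ZCT of block BOUND-Z -/

namespace Pool.Agent.LE

open Pool.Agent.helper58.DC Pool.Agent.DI Pool.Agent.GR Pool.Agent.OB Pool.Agent.DR Pool.Agent.FI Pool.Agent.FI3 Pool.Agent.FI4

open scoped Pointwise

theorem ZCT_cz_bot (G : Type) [Group G] : cz (⊥ : Subgroup G) = ⊤ := by
  rw [eq_top_iff]
  intro x _
  rw [Subgroup.mem_centralizer_iff]
  intro y hy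
  have h : y = 1 := hy
  rw [h, one_mul, mul_one]

theorem ZCT_card {G : Type} [Group G] (T K : Subgroup G) :
    ((T : Set G) * (K : Set G)).ncard = K.relIndex T * Nat.card K := by
  rw [← Nat.card_coe_set_eq, Subgroup.card_mul_eq_card_subgroup_mul_card_quotient, mul_comm]
  congr 1
  have h1 : ((T : Set G).image (QuotientGroup.mk : G → G ⧸ K)) = MulAction.orbit T ((1 : G) : G ⧸ K) := by
    ext q
    constructor
    · rintro ⟨t, ht, rfl⟩
      refine ⟨⟨t, ht⟩, ?_⟩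
      change ((t * 1 : G) : G ⧸ K) = _
      rw [mul_one]
    · rintro ⟨t, rfl⟩
      refine ⟨t, t.2, ?_⟩
      change _ = (((t : G) * 1 : G) : G ⧸ K)
      rw [mul_one]
  have h2 : MulAction.stabilizer T ((1 : G) : G ⧸ K) = K.subgroupOf T := by
    ext t
    rw [MulAction.mem_stabilizer_iff, Subgroup.mem_subgroupOf]
    have h3 : t • ((1 : G) : G ⧸ K) = ((t : G) : G ⧸ K) := by
      change (((t : G) * 1 : G) : G ⧸ K) = _
      rw [mul_one]
    rw [h3, eq_comm, QuotientGroup.eq]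
    simp
  rw [h1, Nat.card_coe_set_eq, ← MulAction.index_stabilizer, h2]
  rfl

theorem ZCT (hQFU4 : QFU4_stmt) (hEXB : EXB_stmt) (hFEQ : FEQ_stmt) (hFRA4 : FRA4_stmt) (hTPR : Pool.Agent.FI.TPR_stmt) :
    ZCT_stmt := by
  intro p M hS G _ _ D x θ χ lo z hz
  have hcK : cz D ≤ Cz (⊤ : Subgroup G) z := by
    intro c hc
    rw [mem_Cz]
    exact ⟨Subgroup.mem_top c, (Subgroup.mem_centralizer_iff.1 hc) z hz⟩
  have hDK : D ≤ Cz (⊤ : Subgroup G) z := (le_cz_of_com lo.rt.com).trans hcK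
  have hpD : IsPGroup p D := lo.rt.dfa.pgrp
  have hth := lo.rt.th
  refine ⟨(Cz (⊤ : Subgroup G) z).relIndex (TT M D θ), fun h => lo.bet (h.trans
    (Subgroup.relIndex_dvd_of_le_left _ hcK)), ?_⟩
  rw [← ZCT_card]
  refine congrArg Set.ncard (Set.ext fun g => ?_)
  rw [Set.mem_setOf_eq, Set.mem_mul]
  constructor
  · rintro ⟨h1, h2⟩
    obtain ⟨ψ, hψ, hψ'⟩ := hEXB p M hS G (Cz (⊤ : Subgroup G) z) D hpD hDK θ (by
      rw [inf_eq_right.2 hcK]
      exact hth)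
    have h3 := SB_conj (h2.trans hψ') g
    have h4 : funMap (MulAut.conj g) (cjF g⁻¹ θ) = θ := by
      change funMap (MulAut.conj g) (funMap (MulAut.conj g⁻¹) θ) = θ
      rw [← funMap_mul, mul_inv_cancel, funMap_one']
    rw [h4, ← cj_Cz, cj_top] at h3
    have hb := ZCT_cz_bot G
    obtain ⟨k, hk, hkg⟩ := hQFU4 p M hS G D x θ χ lo ⊥ bot_le z hz g (by
      rw [hb]
      exact Subgroup.mem_top g) h1 ψ (by
      rw [hb]
      exact hψ) (by
      rw [hb]
      exact hψ') (by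
      rw [hb]
      exact h3)
    rw [hb, mem_Cz] at hk
    refine ⟨k * g, hkg, (k * g)⁻¹ * g, ?_, by group⟩
    change (k * g)⁻¹ * g ∈ Cz (⊤ : Subgroup G) z
    rw [mem_Cz]
    refine ⟨Subgroup.mem_top _, ?_⟩
    have h5 : (g * z * g⁻¹) * k⁻¹ = k⁻¹ * (g * z * g⁻¹) := by
      have h6 := hk.2
      calc (g * z * g⁻¹) * k⁻¹ = k⁻¹ * (k * (g * z * g⁻¹)) * k⁻¹ := by group
        _ = k⁻¹ * ((g * z * g⁻¹) * k) * k⁻¹ := by rw [h6]
        _ = k⁻¹ * (g * z * g⁻¹) := by group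
    calc z * ((k * g)⁻¹ * g) = g⁻¹ * ((g * z * g⁻¹) * k⁻¹) * g := by group
      _ = g⁻¹ * (k⁻¹ * (g * z * g⁻¹)) * g := by rw [h5]
      _ = (k * g)⁻¹ * g * z := by group
  · rintro ⟨t, ht, k, hk, rfl⟩
    have ht' : t ∈ TT M D θ := ht
    have hk' : k ∈ Cz (⊤ : Subgroup G) z := hk
    have hkz := (mem_Cz.1 hk').2
    constructor
    · have h1 : t * k * z * (t * k)⁻¹ = t * z * t⁻¹ := by
        calc t * k * z * (t * k)⁻¹ = t * (k * z) * k⁻¹ * t⁻¹ := by group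
          _ = t * (z * k) * k⁻¹ * t⁻¹ := by rw [hkz]
          _ = t * z * t⁻¹ := by group
      rw [h1]
      exact (Subgroup.mem_normalizer_iff.1 ht'.1 z).1 hz
    · have h1 : cjF (t * k)⁻¹ θ = funMap (MulAut.conj k⁻¹) (funMap (MulAut.conj t⁻¹) θ) := by
        rw [← funMap_mul, mul_inv_rev]
      rw [h1]
      refine (SB_inner ((Cz (⊤ : Subgroup G) z).inv_mem hk') _).trans ?_
      have ht'' := (TT M D θ).inv_mem ht'
      refine TRNb hcK ?_ (fun y hy => IrrOn_zero hth hy) ht''.2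
      intro y hy
      rw [funMap_apply]
      refine IrrOn_zero hth fun h2 => hy ?_
      have h3 := cz_conj ht''.1 h2
      have h4 : t⁻¹ * (t⁻¹⁻¹ * y * t⁻¹) * t⁻¹⁻¹ = y := by group
      rwa [h4] at h3

end Pool.Agent.LE
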